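import Pool.Agent.W46.HM.Stm2

/-! Project HM: all windows. -/

set_option autoImplicit false

open Finset MeasureTheory
open scoped Classical ENNReal

namespace Pool.Agent.W240.HM
open Pool.Agent.W46.HM

theorem sum_rpow_le {ι : Type} (T : Finset ι) (a : ι → ℝ) (s : ℝ) (hs : 1 ≤ s)
    (ha : ∀ i ∈ T, 0 ≤ a i) : ∑ i ∈ T, a i ^ s ≤ (∑ i ∈ T, a i) ^ s := by
  set A := ∑ i ∈ T, a i with hA
  have hA0 : 0 ≤ A := Finset.sum_nonneg ha
  have hle : ∀ i ∈ T, a i ≤ A := fun i hi => Finset.single_le_sum ha hi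
  have hs0 : s ≠ 0 := by linarith
  have h1 : ∀ i ∈ T, a i ^ s ≤ a i * A ^ (s - 1) := by
    intro i hi
    rcases eq_or_lt_of_le (ha i hi) with h | h
    · rw [← h, Real.zero_rpow hs0, zero_mul]
    · have h2 : a i ^ s = a i * a i ^ (s - 1) := by
        rw [← Real.rpow_one_add' h.le (by linarith)]
        congr 1
        ring
      rw [h2]
      exact mul_le_mul_of_nonneg_left
        (Real.rpow_le_rpow h.le (hle i hi) (by linarith)) h.le
  refine (Finset.sum_le_sum h1).trans ?_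
  rw [← Finset.sum_mul, ← hA]
  rcases eq_or_lt_of_le hA0 with h | h
  · rw [← h, zero_mul, Real.zero_rpow hs0]
  · rw [← Real.rpow_one_add' h.le (by linarith)]
    apply le_of_eq
    congr 1
    ring

theorem card_int (b : ℝ) (T : Finset ℤ) :
    (T.filter (fun w : ℤ => |b - (w : ℝ)| ≤ 3)).card ≤ 7 := by
  have h1 : T.filter (fun w : ℤ => |b - (w : ℝ)| ≤ 3) ⊆ Finset.Icc ⌈b - 3⌉ ⌊b + 3⌋ := by
    intro w hw
    rw [Finset.mem_filter, abs_le] at hw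
    rw [Finset.mem_Icc, Int.ceil_le, Int.le_floor]
    constructor <;> linarith [hw.2.1, hw.2.2]
  refine (Finset.card_le_card h1).trans ?_
  rw [Int.card_Icc]
  have h2 : ((⌊b + 3⌋ : ℤ) : ℝ) ≤ b + 3 := Int.floor_le _
  have h3 : b - 3 ≤ (⌈b - 3⌉ : ℤ) := Int.le_ceil _
  have h4 : ((⌊b + 3⌋ - ⌈b - 3⌉ : ℤ) : ℝ) ≤ 6 := by push_cast; linarith
  have h5 : ⌊b + 3⌋ - ⌈b - 3⌉ ≤ 6 := by exact_mod_cast h4
  omega

theorem count {Ω : Type} [Fintype Ω] (b : Ω → ℝ) (T : Finset ℤ) :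
    ∑ w ∈ T, (univ.filter (fun ω => |b ω - ((w : ℤ) : ℝ)| ≤ 3)).card ≤ 7 * Fintype.card Ω := by
  have h8 : ∑ w ∈ T, (univ.filter (fun ω => |b ω - ((w : ℤ) : ℝ)| ≤ 3)).card =
      ∑ ω : Ω, (T.filter (fun w : ℤ => |b ω - (w : ℝ)| ≤ 3)).card := by
    rw [Finset.sum_congr rfl fun w _ => Finset.card_filter _ _,
      Finset.sum_congr (s₁ := (univ : Finset Ω)) rfl fun ω _ => Finset.card_filter _ T]
    exact Finset.sum_comm
  rw [h8]
  refine (Finset.sum_le_sum fun ω _ => card_int (b ω) T).trans ?_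
  rw [Finset.sum_const, Finset.card_univ, smul_eq_mul, mul_comm]

theorem ALLW (q : ℝ) (h : S_WIN q) : S_ALLW q := by
  intro d hd hq R hR
  obtain ⟨C, hC, hwin⟩ := h d hd hq R hR
  have hd0 : (0 : ℝ) < d := by
    have : 0 < d := by omega
    exact_mod_cast this
  set s : ℝ := q - 1 / (d : ℝ) with hsdef
  have hs : 1 ≤ s := by
    have h1 : (16752 / 10000 : ℝ) / d = 1 / d + (6752 / 10000) / d := by
      rw [← add_div]; norm_num
    have h2 : 0 ≤ (6752 / 10000 : ℝ) / d := by positivity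
    rw [hsdef]
    linarith
  have hq0 : 0 ≤ q := by
    have h2 : 0 ≤ (16752 / 10000 : ℝ) / d := by positivity
    linarith
  refine ⟨7 ^ s * C, by positivity, ?_⟩
  intro N Ω _ P v b r hN hr hNr hv hsep
  have hNpos : (0 : ℝ) < N := by exact_mod_cast hN
  set F : ℝ × (Fin d → ℝ) → ℝ≥0∞ := fun z => (∑ ω, (if (|z.1 - b ω| ≤ 3 / 2 ∧
        ∀ k, |z.2 k - (P ω k + z.1 * v ω k)| ≤ r) then (1 : ℝ≥0∞) else 0)) ^ q with hF
  set U : ℤ → Set (ℝ × (Fin d → ℝ)) := fun w =>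
    Set.Ico (w : ℝ) ((w : ℝ) + 1) ×ˢ (Set.univ : Set (Fin d → ℝ)) with hU
  have hUm : ∀ w, MeasurableSet (U w) := fun w => measurableSet_Ico.prod MeasurableSet.univ
  have hUd : Pairwise (Function.onFun Disjoint U) := by
    intro w w' hww
    rw [Function.onFun, Set.disjoint_left]
    rintro z ⟨hz, _⟩ ⟨hz', _⟩
    apply hww
    have h1 : ⌊z.1⌋ = w := Int.floor_eq_iff.2 ⟨hz.1, hz.2⟩
    have h2 : ⌊z.1⌋ = w' := Int.floor_eq_iff.2 ⟨hz'.1, hz'.2⟩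
    rw [← h1, ← h2]
  have hUu : ⋃ w, U w = Set.univ := by
    rw [Set.eq_univ_iff_forall]
    intro z
    rw [Set.mem_iUnion]
    exact ⟨⌊z.1⌋, ⟨Int.floor_le _, Int.lt_floor_add_one _⟩, Set.mem_univ _⟩
  have hbound : ∀ w : ℤ, ∫⁻ z in U w, F z ≤ ENNReal.ofReal (C * (N : ℝ) ^ (-(d : ℝ)) *
      ((univ.filter (fun ω => |b ω - (w : ℝ)| ≤ 3)).card : ℝ) ^ s) := by
    intro w
    have h1 := hwin N {ω : Ω // |b ω - (w : ℝ)| ≤ 3} (fun ω => P ω.1) (fun ω => v ω.1) (w : ℝ) r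
      hN hr hNr (fun ω k => hv ω.1 k) (fun ω ω' hh => Subtype.ext (hsep ω.1 ω'.1 hh))
    rw [Fintype.card_subtype] at h1
    refine le_trans ?_ h1
    refine setLIntegral_mono' (hUm w) ?_
    rintro z ⟨hz, _⟩
    refine ENNReal.rpow_le_rpow ?_ hq0
    have h2 : ∀ ω : Ω, ¬ |b ω - (w : ℝ)| ≤ 3 → (if (|z.1 - b ω| ≤ 3 / 2 ∧
        ∀ k, |z.2 k - (P ω k + z.1 * v ω k)| ≤ r) then (1 : ℝ≥0∞) else 0) = 0 := by
      intro ω hω
      rw [if_neg]
      rintro ⟨h3, _⟩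
      apply hω
      rw [abs_le] at h3 ⊢
      have h4 := hz.1
      have h5 := hz.2
      constructor <;> linarith [h3.1, h3.2]
    rw [← Finset.sum_filter_add_sum_filter_not univ (fun ω => |b ω - (w : ℝ)| ≤ 3)]
    rw [Finset.sum_eq_zero (s := univ.filter (fun ω => ¬ |b ω - (w : ℝ)| ≤ 3))
      (fun ω hω => h2 ω (Finset.mem_filter.1 hω).2), add_zero]
    rw [Finset.sum_subtype (univ.filter (fun ω => |b ω - (w : ℝ)| ≤ 3))
      (p := fun ω => |b ω - (w : ℝ)| ≤ 3) (by simp)]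
    refine Finset.sum_le_sum fun ω _ => ?_
    split_ifs with h3 h4 h5
    · exact le_rfl
    · exact absurd h3.2 h4
    · exact zero_le
    · exact le_rfl
  have htot : ∫⁻ z, F z = ∑' w, ∫⁻ z in U w, F z := by
    rw [← lintegral_iUnion hUm hUd, hUu, Measure.restrict_univ]
  show ∫⁻ z, F z ≤ _
  rw [htot, ENNReal.tsum_eq_iSup_sum]
  refine iSup_le fun T => ?_
  have hK : 0 ≤ C * (N : ℝ) ^ (-(d : ℝ)) := by positivity
  refine (Finset.sum_le_sum fun w _ => hbound w).trans ?_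
  rw [← ENNReal.ofReal_sum_of_nonneg
    (fun w _ => mul_nonneg hK (Real.rpow_nonneg (Nat.cast_nonneg _) _))]
  apply ENNReal.ofReal_le_ofReal
  rw [← Finset.mul_sum]
  have h6 : ∑ w ∈ T, ((univ.filter (fun ω => |b ω - (w : ℝ)| ≤ 3)).card : ℝ) ^ s ≤
      (7 * (Fintype.card Ω : ℝ)) ^ s := by
    refine (sum_rpow_le T _ s hs (fun w _ => Nat.cast_nonneg _)).trans ?_
    refine Real.rpow_le_rpow (Finset.sum_nonneg fun w _ => Nat.cast_nonneg _) ?_ (by linarith)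
    have h7 : ((∑ w ∈ T, (univ.filter (fun ω => |b ω - ((w : ℤ) : ℝ)| ≤ 3)).card : ℕ) : ℝ) ≤
        ((7 * Fintype.card Ω : ℕ) : ℝ) := Nat.cast_le.2 (count b T)
    rw [Nat.cast_sum, Nat.cast_mul] at h7
    exact h7
  calc C * (N : ℝ) ^ (-(d : ℝ)) * ∑ w ∈ T, ((univ.filter (fun ω => |b ω - (w : ℝ)| ≤ 3)).card : ℝ) ^ s
      ≤ C * (N : ℝ) ^ (-(d : ℝ)) * (7 * (Fintype.card Ω : ℝ)) ^ s :=
        mul_le_mul_of_nonneg_left h6 hK
    _ = 7 ^ s * C * (N : ℝ) ^ (-(d : ℝ)) * (Fintype.card Ω : ℝ) ^ s := by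
        rw [Real.mul_rpow (by norm_num) (by positivity)]
        ring

end Pool.Agent.W240.HM
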